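import Mathlib

namespace Pool.Agent.Results.MP_38b5f0_co.TwoArcStrong

/-- Digraphs on `V` are given by their arc sets (so there are no parallel arcs). -/
def Loopless {V : Type} (A : Finset (V × V)) : Prop := ∀ a ∈ A, a.1 ≠ a.2

/-- Reachability along arcs of `A`. -/
def Reach {V : Type} (A : Finset (V × V)) (u v : V) : Prop :=
  Relation.ReflTransGen (fun x y => (x, y) ∈ A) u v

/-- Strongly connected. -/
def Strong {V : Type} (A : Finset (V × V)) : Prop := ∀ u v : V, Reach A u v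

/-- `k`-arc-strong: strong after removing any fewer than `k` arcs. -/
def ArcStrong {V : Type} [DecidableEq V] (k : ℕ) (A : Finset (V × V)) : Prop :=
  ∀ X ⊆ A, X.card < k → Strong (A \ X)

/-- `S` is independent: no arc joins two of its vertices. -/
def Indep {V : Type} (A : Finset (V × V)) (S : Finset V) : Prop :=
  ∀ u ∈ S, ∀ v ∈ S, (u, v) ∉ A

/-- The independence number is exactly `2`. -/
def IndepNumberTwo {V : Type} (A : Finset (V × V)) : Prop :=
  (∃ S : Finset V, Indep A S ∧ S.card = 2) ∧ ∀ S : Finset V, Indep A S → S.card ≤ 2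

/-- Out-branching rooted at `s`: every vertex is reached from `s`, no arc enters `s`, and every
vertex is entered by at most one arc. -/
def OutBranching {V : Type} (s : V) (B : Finset (V × V)) : Prop :=
  (∀ v, Reach B s v) ∧ (∀ a ∈ B, a.2 ≠ s) ∧ ∀ a ∈ B, ∀ b ∈ B, a.2 = b.2 → a = b

/-- In-branching rooted at `t`. -/
def InBranching {V : Type} (t : V) (B : Finset (V × V)) : Prop :=
  (∀ v, Reach B v t) ∧ (∀ a ∈ B, a.1 ≠ t) ∧ ∀ a ∈ B, ∀ b ∈ B, a.1 = b.1 → a = b

/-- `A` contains an arc-disjoint pair `B_s⁺`, `B_t⁻`. -/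
def GoodPair {V : Type} (A : Finset (V × V)) (s t : V) : Prop :=
  ∃ P Q : Finset (V × V), P ⊆ A ∧ Q ⊆ A ∧ Disjoint P Q ∧ OutBranching s P ∧ InBranching t Q

theorem reach_cut {V : Type} {A : Finset (V × V)} {x y : V} (h : Reach A x y) (X : V → Prop)
    (hx : X x) (hy : ¬ X y) : ∃ u v, X u ∧ ¬ X v ∧ (u, v) ∈ A := by
  have key : ∀ z, Relation.ReflTransGen (fun x y => (x, y) ∈ A) x z →
      X z ∨ ∃ u v, X u ∧ ¬ X v ∧ (u, v) ∈ A := by
    intro z hz
    induction hz with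
    | refl => exact Or.inl hx
    | @tail b c _ hbc ih =>
      rcases ih with ih | ih
      · by_cases hc : X c
        · exact Or.inl hc
        · exact Or.inr ⟨b, c, ih, hc, hbc⟩
      · exact Or.inr ih
  rcases key y h with h1 | h1
  · exact absurd h1 hy
  · exact h1

theorem cut_arcs {n : ℕ} (D : Finset (Fin n × Fin n)) (X : Fin n → Bool) (x y : Fin n)
    (hx : X x = true) (hy : X y = false) (a b : Fin n × Fin n)
    (hcut : ∀ u v : Fin n, (u, v) ∈ D → X u = true → X v = false → (u, v) = a ∨ (u, v) = b)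
    (B : Finset (Fin n × Fin n)) (hB : B ⊆ D) (hr : Reach B x y) : a ∈ B ∨ b ∈ B := by
  obtain ⟨u, v, hu, hv, huv⟩ := reach_cut hr (fun z => X z = true) hx (by rw [hy]; decide)
  have hv' : X v = false := by simpa using hv
  rcases hcut u v (hB huv) hu hv' with h | h
  · left; rw [← h]; exact huv
  · right; rw [← h]; exact huv

def step {n : ℕ} (A : Finset (Fin n × Fin n)) (S : Finset (Fin n)) : Finset (Fin n) :=
  S ∪ (A.filter fun a => a.1 ∈ S).image Prod.snd

theorem iter_sound {n : ℕ} (A : Finset (Fin n × Fin n)) (u : Fin n) (k : ℕ) :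
    ∀ v ∈ (step A)^[k] {u}, Reach A u v := by
  induction k with
  | zero => intro v hv; simp at hv; subst hv; exact Relation.ReflTransGen.refl
  | succ k ih =>
    rw [Function.iterate_succ_apply']
    intro v hv
    rw [step, Finset.mem_union, Finset.mem_image] at hv
    rcases hv with hv | ⟨a, ha, rfl⟩
    · exact ih v hv
    · rw [Finset.mem_filter] at ha
      exact (ih _ ha.2).tail ha.1

theorem arcStrong_of_check {n : ℕ} (A : Finset (Fin n × Fin n)) (k : ℕ)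
    (h0 : ∀ u v : Fin n, v ∈ (step (A \ ∅))^[k] {u})
    (h1 : ∀ a ∈ A, ∀ u v : Fin n, v ∈ (step (A \ {a}))^[k] {u}) : ArcStrong 2 A := by
  intro X hX hc
  have hc' : X.card = 0 ∨ X.card = 1 := by omega
  rcases hc' with hc' | hc'
  · rw [Finset.card_eq_zero] at hc'
    subst hc'
    exact fun u v => iter_sound _ u k v (h0 u v)
  · rw [Finset.card_eq_one] at hc'
    obtain ⟨a, rfl⟩ := hc'
    exact fun u v => iter_sound _ u k v (h1 a (hX (Finset.mem_singleton_self a)) u v)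

/-- Seven vertices, fourteen arcs. -/
def D7 : Finset (Fin 7 × Fin 7) :=
  {(0, 3), (0, 6), (1, 0), (1, 6), (2, 3), (2, 4), (3, 0), (3, 4), (4, 2), (4, 5), (5, 1), (5, 2),
    (6, 1), (6, 5)}

/-- Five vertices, ten arcs. -/
def D5 : Finset (Fin 5 × Fin 5) :=
  {(0, 2), (0, 4), (1, 0), (1, 2), (2, 1), (2, 3), (3, 0), (3, 4), (4, 1), (4, 3)}

theorem noPair_D7 : ¬ GoodPair D7 5 5 := by
  rintro ⟨P, Q, sP, sQ, hdis, ⟨rP, -, -⟩, ⟨rQ, -, -⟩⟩
  have hd : ∀ a, a ∈ P → a ∈ Q → False := fun a ha hb => Finset.disjoint_left.1 hdis ha hb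
  -- cuts not containing the root: `Q` must leave
  have q1 : ((0, 3) : Fin 7 × Fin 7) ∈ Q ∨ ((0, 6) : Fin 7 × Fin 7) ∈ Q :=
    cut_arcs D7 (fun z => decide (z = 0)) 0 5 (by decide) (by decide) _ _ (by decide +kernel)
      Q sQ (rQ 0)
  have q2 : ((1, 0) : Fin 7 × Fin 7) ∈ Q ∨ ((1, 6) : Fin 7 × Fin 7) ∈ Q :=
    cut_arcs D7 (fun z => decide (z = 1)) 1 5 (by decide) (by decide) _ _ (by decide +kernel)
      Q sQ (rQ 1)
  have q3 : ((2, 3) : Fin 7 × Fin 7) ∈ Q ∨ ((2, 4) : Fin 7 × Fin 7) ∈ Q :=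
    cut_arcs D7 (fun z => decide (z = 2)) 2 5 (by decide) (by decide) _ _ (by decide +kernel)
      Q sQ (rQ 2)
  have q4 : ((3, 0) : Fin 7 × Fin 7) ∈ Q ∨ ((3, 4) : Fin 7 × Fin 7) ∈ Q :=
    cut_arcs D7 (fun z => decide (z = 3)) 3 5 (by decide) (by decide) _ _ (by decide +kernel)
      Q sQ (rQ 3)
  have q5 : ((0, 6) : Fin 7 × Fin 7) ∈ Q ∨ ((3, 4) : Fin 7 × Fin 7) ∈ Q :=
    cut_arcs D7 (fun z => decide (z = 0 ∨ z = 3)) 0 5 (by decide) (by decide) _ _
      (by decide +kernel) Q sQ (rQ 0)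
  -- cuts containing the root: `P` must leave
  have p1 : ((0, 6) : Fin 7 × Fin 7) ∈ P ∨ ((1, 6) : Fin 7 × Fin 7) ∈ P :=
    cut_arcs D7 (fun z => decide (z ≠ 6)) 5 6 (by decide) (by decide) _ _ (by decide +kernel)
      P sP (rP 6)
  have p2 : ((2, 4) : Fin 7 × Fin 7) ∈ P ∨ ((3, 4) : Fin 7 × Fin 7) ∈ P :=
    cut_arcs D7 (fun z => decide (z ≠ 4)) 5 4 (by decide) (by decide) _ _ (by decide +kernel)
      P sP (rP 4)
  have p3 : ((1, 0) : Fin 7 × Fin 7) ∈ P ∨ ((2, 3) : Fin 7 × Fin 7) ∈ P :=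
    cut_arcs D7 (fun z => decide (z ≠ 0 ∧ z ≠ 3)) 5 0 (by decide) (by decide) _ _
      (by decide +kernel) P sP (rP 0)
  have p4 : ((0, 3) : Fin 7 × Fin 7) ∈ P ∨ ((2, 3) : Fin 7 × Fin 7) ∈ P :=
    cut_arcs D7 (fun z => decide (z ≠ 3)) 5 3 (by decide) (by decide) _ _ (by decide +kernel)
      P sP (rP 3)
  have p5 : ((1, 0) : Fin 7 × Fin 7) ∈ P ∨ ((3, 0) : Fin 7 × Fin 7) ∈ P :=
    cut_arcs D7 (fun z => decide (z ≠ 0)) 5 0 (by decide) (by decide) _ _ (by decide +kernel)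
      P sP (rP 0)
  by_cases h06 : ((0, 6) : Fin 7 × Fin 7) ∈ P
  · have m34 := q5.resolve_left (fun h => hd _ h06 h)
    have m03 := q1.resolve_right (fun h => hd _ h06 h)
    have m24 := p2.resolve_right (fun h => hd _ h m34)
    have m23 := p4.resolve_left (fun h => hd _ h m03)
    rcases q3 with h | h
    · exact hd _ m23 h
    · exact hd _ m24 h
  · have m16 := p1.resolve_left h06
    have m10 := q2.resolve_right (fun h => hd _ m16 h)
    have m23 := p3.resolve_left (fun h => hd _ h m10)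
    have m30 := p5.resolve_left (fun h => hd _ h m10)
    have m34 := q4.resolve_left (fun h => hd _ m30 h)
    have m24 := p2.resolve_right (fun h => hd _ h m34)
    rcases q3 with h | h
    · exact hd _ m23 h
    · exact hd _ m24 h

theorem noPair_D5 : ¬ GoodPair D5 1 4 := by
  rintro ⟨P, Q, sP, sQ, hdis, ⟨rP, -, -⟩, ⟨rQ, -, -⟩⟩
  have hd : ∀ a, a ∈ P → a ∈ Q → False := fun a ha hb => Finset.disjoint_left.1 hdis ha hb
  have q1 : ((0, 2) : Fin 5 × Fin 5) ∈ Q ∨ ((0, 4) : Fin 5 × Fin 5) ∈ Q :=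
    cut_arcs D5 (fun z => decide (z = 0)) 0 4 (by decide) (by decide) _ _ (by decide +kernel)
      Q sQ (rQ 0)
  have q2 : ((1, 0) : Fin 5 × Fin 5) ∈ Q ∨ ((1, 2) : Fin 5 × Fin 5) ∈ Q :=
    cut_arcs D5 (fun z => decide (z = 1)) 1 4 (by decide) (by decide) _ _ (by decide +kernel)
      Q sQ (rQ 1)
  have q3 : ((1, 0) : Fin 5 × Fin 5) ∈ Q ∨ ((2, 3) : Fin 5 × Fin 5) ∈ Q :=
    cut_arcs D5 (fun z => decide (z = 1 ∨ z = 2)) 1 4 (by decide) (by decide) _ _
      (by decide +kernel) Q sQ (rQ 1)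
  have q4 : ((0, 4) : Fin 5 × Fin 5) ∈ Q ∨ ((2, 3) : Fin 5 × Fin 5) ∈ Q :=
    cut_arcs D5 (fun z => decide (z = 0 ∨ z = 1 ∨ z = 2)) 1 4 (by decide) (by decide) _ _
      (by decide +kernel) Q sQ (rQ 1)
  have q5 : ((3, 0) : Fin 5 × Fin 5) ∈ Q ∨ ((3, 4) : Fin 5 × Fin 5) ∈ Q :=
    cut_arcs D5 (fun z => decide (z = 3)) 3 4 (by decide) (by decide) _ _ (by decide +kernel)
      Q sQ (rQ 3)
  have p1 : ((1, 0) : Fin 5 × Fin 5) ∈ P ∨ ((1, 2) : Fin 5 × Fin 5) ∈ P :=
    cut_arcs D5 (fun z => decide (z = 1)) 1 4 (by decide) (by decide) _ _ (by decide +kernel)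
      P sP (rP 4)
  have p2 : ((1, 0) : Fin 5 × Fin 5) ∈ P ∨ ((2, 3) : Fin 5 × Fin 5) ∈ P :=
    cut_arcs D5 (fun z => decide (z = 1 ∨ z = 2)) 1 4 (by decide) (by decide) _ _
      (by decide +kernel) P sP (rP 4)
  have p3 : ((0, 4) : Fin 5 × Fin 5) ∈ P ∨ ((2, 3) : Fin 5 × Fin 5) ∈ P :=
    cut_arcs D5 (fun z => decide (z = 0 ∨ z = 1 ∨ z = 2)) 1 4 (by decide) (by decide) _ _
      (by decide +kernel) P sP (rP 4)
  have p4 : ((0, 4) : Fin 5 × Fin 5) ∈ P ∨ ((3, 4) : Fin 5 × Fin 5) ∈ P :=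
    cut_arcs D5 (fun z => decide (z ≠ 4)) 1 4 (by decide) (by decide) _ _ (by decide +kernel)
      P sP (rP 4)
  have p5 : ((0, 2) : Fin 5 × Fin 5) ∈ P ∨ ((1, 2) : Fin 5 × Fin 5) ∈ P :=
    cut_arcs D5 (fun z => decide (z ≠ 2)) 1 2 (by decide) (by decide) _ _ (by decide +kernel)
      P sP (rP 2)
  have p6 : ((1, 0) : Fin 5 × Fin 5) ∈ P ∨ ((3, 0) : Fin 5 × Fin 5) ∈ P :=
    cut_arcs D5 (fun z => decide (z ≠ 0)) 1 0 (by decide) (by decide) _ _ (by decide +kernel)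
      P sP (rP 0)
  by_cases h10 : ((1, 0) : Fin 5 × Fin 5) ∈ P
  · have m12 := q2.resolve_left (fun h => hd _ h10 h)
    have m23 := q3.resolve_left (fun h => hd _ h10 h)
    have m04 := p3.resolve_right (fun h => hd _ h m23)
    have m02 := q1.resolve_right (fun h => hd _ m04 h)
    rcases p5 with h | h
    · exact hd _ h m02
    · exact hd _ h m12
  · have m23 := p2.resolve_left h10
    have m30 := p6.resolve_left h10
    have m04 := q4.resolve_right (fun h => hd _ m23 h)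
    have m34 := p4.resolve_left (fun h => hd _ h m04)
    rcases q5 with h | h
    · exact hd _ m30 h
    · exact hd _ m34 h

/-- **Three cannot be replaced by two in Q1 of MP_38b5f0_co.**  There are digraphs without
parallel arcs, 2-arc-strong and of independence number 2, with no arc-disjoint pair
`B_s⁺`, `B_t⁻`: one on seven vertices with `s = t`, and one on five vertices with `s ≠ t`. -/
theorem result :
    (∃ (D : Finset (Fin 7 × Fin 7)) (s : Fin 7), Loopless D ∧ ArcStrong 2 D ∧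
        IndepNumberTwo D ∧ ¬ GoodPair D s s) ∧
    (∃ (D : Finset (Fin 5 × Fin 5)) (s t : Fin 5), s ≠ t ∧ Loopless D ∧ ArcStrong 2 D ∧
        IndepNumberTwo D ∧ ¬ GoodPair D s t) := by
  refine ⟨⟨D7, 5, ?_, ?_, ?_, noPair_D7⟩, ⟨D5, 1, 4, by decide, ?_, ?_, ?_, noPair_D5⟩⟩
  · unfold Loopless; decide +kernel
  · exact arcStrong_of_check D7 6 (by decide +kernel) (by decide +kernel)
  · unfold IndepNumberTwo Indep; decide +kernel
  · unfold Loopless; decide +kernel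
  · exact arcStrong_of_check D5 4 (by decide +kernel) (by decide +kernel)
  · unfold IndepNumberTwo Indep; decide +kernel

end Pool.Agent.Results.MP_38b5f0_co.TwoArcStrong
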